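import Mathlib

/-!
# The bound `d + 2 ≤ 2 r` (copied from an earlier result of the library,
`R_pool_sql_team_seeded_64922ed1`, `MP_02c618_ag.RankAtLeastHalf`)
-/

set_option autoImplicit false

namespace Pool.Agent.KS6_56.WR

open Finset Module

theorem moments {r d : ℕ} (hr : r ≤ d) (α β : Fin r → ℂ) (hβ : ∀ k, β k ≠ 0)
    (h : ∀ t : ℂ, 1 + ∑ k, (α k + t * β k) ^ d = 0) : False := by
  let γ : Fin r → ℂ := fun k => α k / β k
  let Q : Polynomial ℂ := 1 + ∑ k, Polynomial.C (β k ^ d) *
    (Polynomial.X + Polynomial.C (γ k)) ^ d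
  have hQ : Q = 0 := by
    apply Polynomial.funext
    intro t
    rw [Polynomial.eval_zero, ← h t]
    simp only [Q, Polynomial.eval_add, Polynomial.eval_one, Polynomial.eval_finsetSum,
      Polynomial.eval_mul, Polynomial.eval_C, Polynomial.eval_pow, Polynomial.eval_X, γ]
    congr 1
    refine sum_congr rfl fun k _ => ?_
    rw [← mul_pow]
    congr 1
    field_simp [hβ k]
    ring
  have hcoeff : ∀ s, s ≤ d → (if s = d then (1 : ℂ) else 0) +
      (∑ k, β k ^ d * γ k ^ s) * (d.choose s : ℂ) = 0 := by
    intro s hs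
    have h1 : Q.coeff (d - s) = 0 := by rw [hQ, Polynomial.coeff_zero]
    simp only [Q, Polynomial.coeff_add, Polynomial.finsetSum_coeff, Polynomial.coeff_C_mul,
      Polynomial.coeff_X_add_C_pow, Polynomial.coeff_one] at h1
    have h2 : d - (d - s) = s := by omega
    have h3 : (d.choose (d - s) : ℂ) = d.choose s := by rw [Nat.choose_symm hs]
    rw [h2, h3] at h1
    have h4 : (if s = d then (1 : ℂ) else 0) = if d - s = 0 then 1 else 0 := by
      by_cases hsd : s = d
      · rw [if_pos hsd, if_pos (by omega)]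
      · rw [if_neg hsd, if_neg (by omega)]
    have h5 : (∑ k, β k ^ d * γ k ^ s) * (d.choose s : ℂ) =
        ∑ k, β k ^ d * (γ k ^ s * (d.choose s : ℂ)) := by
      rw [sum_mul]
      exact sum_congr rfl fun k _ => by ring
    rw [h4, h5]
    exact h1
  have hlow : ∀ s, s < d → ∑ k, β k ^ d * γ k ^ s = 0 := by
    intro s hs
    have h1 := hcoeff s hs.le
    rw [if_neg hs.ne, zero_add] at h1
    rcases mul_eq_zero.1 h1 with h2 | h2
    · exact h2
    · exfalso
      have : d.choose s ≠ 0 := (Nat.choose_pos hs.le).ne'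
      exact this (by exact_mod_cast h2)
  have htop : ∑ k, β k ^ d * γ k ^ d = -1 := by
    have h1 := hcoeff d le_rfl
    rw [if_pos rfl, Nat.choose_self, Nat.cast_one, mul_one] at h1
    linear_combination h1
  -- a monic polynomial of degree `d` vanishing in all `γ k`
  let H : Polynomial ℂ := Polynomial.X ^ (d - r) * ∏ k, (Polynomial.X - Polynomial.C (γ k))
  have hmon : (∏ k, (Polynomial.X - Polynomial.C (γ k))).Monic :=
    Polynomial.monic_prod_of_monic _ _ fun k _ => Polynomial.monic_X_sub_C _
  have hHm : H.Monic := (Polynomial.monic_X_pow _).mul hmon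
  have hdeg : H.natDegree = d := by
    rw [(Polynomial.monic_X_pow _).natDegree_mul hmon, Polynomial.natDegree_X_pow,
      Polynomial.natDegree_prod_of_monic _ _ fun k _ => Polynomial.monic_X_sub_C _]
    simp
    omega
  have hHd : H.coeff d = 1 := by
    rw [← hdeg]
    exact hHm
  have hroot : ∀ k, H.eval (γ k) = 0 := by
    intro k
    simp only [H, Polynomial.eval_mul, Polynomial.eval_prod, Polynomial.eval_sub,
      Polynomial.eval_X, Polynomial.eval_C]
    rw [prod_eq_zero (mem_univ k) (sub_self _), mul_zero]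
  have hsum : ∑ k, β k ^ d * H.eval (γ k) = -1 := by
    have h1 : ∀ k, β k ^ d * H.eval (γ k) =
        ∑ s ∈ range (d + 1), H.coeff s * (β k ^ d * γ k ^ s) := by
      intro k
      rw [Polynomial.eval_eq_sum_range, hdeg, mul_sum]
      exact sum_congr rfl fun s _ => by ring
    rw [sum_congr rfl fun k _ => h1 k, sum_comm, sum_range_succ]
    have h2 : ∑ s ∈ range d, ∑ k, H.coeff s * (β k ^ d * γ k ^ s) = 0 := by
      apply sum_eq_zero
      intro s hs
      rw [← mul_sum, hlow s (mem_range.1 hs), mul_zero]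
    rw [h2, ← mul_sum, htop, hHd]
    ring
  have hzero : ∑ k, β k ^ d * H.eval (γ k) = 0 :=
    sum_eq_zero fun k _ => by rw [hroot, mul_zero]
  rw [hzero] at hsum
  norm_num at hsum

section Dual

variable {E : Type} [AddCommGroup E] [Module ℂ E]

theorem span_of {d r : ℕ} (a : Fin d → Dual ℂ E) (b₀ : Dual ℂ E) (b : Fin r → Dual ℂ E)
    (hF : ∀ x, ∏ i, a i x = b₀ x ^ d + ∑ k, b k x ^ d) (hb₀ : b₀ ≠ 0)
    (hb : ∀ k, b k ∉ Submodule.span ℂ {b₀}) (hr : r ≤ d) (i : Fin d) :
    a i ∈ Submodule.span ℂ {b₀} ∨ ∃ k, a i ∈ Submodule.span ℂ {b₀, b k} := by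
  by_contra hcon
  push Not at hcon
  obtain ⟨h0, hk⟩ := hcon
  have hd : 0 < d := i.pos
  -- a point `p` with `a i p = 0`, `b₀ p = 1`
  have hp : ∃ p, a i p = 0 ∧ b₀ p = 1 := by
    have h1 : ¬ LinearMap.ker (a i) ≤ LinearMap.ker b₀ := by
      intro hle
      have h2 : b₀ ∈ Submodule.span ℂ (Set.range ![a i]) := by
        apply mem_span_of_iInf_ker_le_ker
        simpa using hle
      simp only [Matrix.range_cons, Matrix.range_empty, Set.union_empty] at h2
      obtain ⟨c, hc⟩ := Submodule.mem_span_singleton.1 h2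
      have hc0 : c ≠ 0 := fun e => hb₀ (by rw [← hc, e, zero_smul])
      apply h0
      rw [← hc]
      refine Submodule.mem_span_singleton.2 ⟨c⁻¹, ?_⟩
      rw [smul_smul, inv_mul_cancel₀ hc0, one_smul]
    obtain ⟨p, hp1, hp2⟩ := SetLike.not_le_iff_exists.1 h1
    rw [LinearMap.mem_ker] at hp1 hp2
    refine ⟨(b₀ p)⁻¹ • p, ?_, ?_⟩
    · rw [map_smul, hp1, smul_zero]
    · rw [map_smul, smul_eq_mul, inv_mul_cancel₀ hp2]
  obtain ⟨p, hp1, hp2⟩ := hp
  -- a direction `q` with `a i q = 0`, `b₀ q = 0`, `b k q ≠ 0`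
  have hq : ∃ q ∈ LinearMap.ker (a i) ⊓ LinearMap.ker b₀, ∀ k, b k q ≠ 0 := by
    apply Module.Dual.exists_forall_mem_ne_zero_of_forall_exists
    intro k
    by_contra hcon
    push Not at hcon
    have h2 : b k ∈ Submodule.span ℂ (Set.range ![a i, b₀]) := by
      apply mem_span_of_iInf_ker_le_ker
      intro x hx
      simp only [Submodule.mem_iInf, LinearMap.mem_ker, Fin.forall_fin_two] at hx
      exact hcon x ⟨hx.1, hx.2⟩
    simp only [Matrix.range_cons, Matrix.range_empty, Set.union_empty,
      Set.singleton_union] at h2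
    obtain ⟨s, t, hst⟩ := Submodule.mem_span_pair.1 h2
    by_cases hs : s = 0
    · apply hb k
      rw [← hst, hs, zero_smul, zero_add]
      exact Submodule.smul_mem _ _ (Submodule.mem_span_singleton_self _)
    · apply hk k
      have : a i = (-(s⁻¹ * t)) • b₀ + s⁻¹ • b k := by
        rw [← hst, smul_add, smul_smul, smul_smul, inv_mul_cancel₀ hs, one_smul]
        module
      rw [this]
      exact Submodule.mem_span_pair.2 ⟨_, _, rfl⟩
  obtain ⟨q, ⟨hq1, hq2⟩, hq3⟩ := hq
  replace hq1 : a i q = 0 := hq1
  replace hq2 : b₀ q = 0 := hq2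
  refine moments hr (fun k => b k p) (fun k => b k q) hq3 fun t => ?_
  have h1 := hF (p + t • q)
  rw [prod_eq_zero (mem_univ i) (by rw [map_add, map_smul, hp1, hq1, smul_zero, add_zero])] at h1
  rw [map_add, map_smul, hp2, hq2, smul_zero, add_zero, one_pow] at h1
  rw [h1]
  congr 1
  refine sum_congr rfl fun k _ => ?_
  rw [map_add, map_smul, smul_eq_mul]

theorem bound [FiniteDimensional ℂ E] {d : ℕ} (hd : 3 ≤ d) (a : Fin d → Dual ℂ E)
    (ha : ∀ s : Finset (Fin d), s.card = 3 → LinearIndependent ℂ (fun i : s => a i)) :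
    ∀ (r : ℕ) (b : Fin r → Dual ℂ E), (∀ x, ∏ i, a i x = ∑ k, b k x ^ d) → d + 2 ≤ 2 * r := by
  intro r
  induction r with
  | zero =>
    intro b hF
    exfalso
    simp only [univ_eq_empty, sum_empty] at hF
    have hne : ∀ i, ∃ x, a i x ≠ 0 := by
      intro i
      obtain ⟨s, his, hs⟩ : ∃ s : Finset (Fin d), i ∈ s ∧ s.card = 3 := by
        obtain ⟨s, h1, _, h3⟩ := exists_subsuperset_card_eq (s := {i}) (t := univ)
          (subset_univ _) (by simp : ({i} : Finset (Fin d)).card ≤ 3) (by simpa using hd)
        exact ⟨s, h1 (mem_singleton_self i), h3⟩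
      have h1 := (ha s hs).ne_zero ⟨i, his⟩
      by_contra hcon
      push Not at hcon
      exact h1 (LinearMap.ext hcon)
    obtain ⟨x, hx⟩ := Module.Dual.exists_forall_ne_zero_of_forall_exists a hne
    exact (prod_ne_zero_iff.2 fun i _ => hx i) (hF x)
  | succ r ih =>
    intro b hF
    have hF' : ∀ x, ∏ i, a i x = b 0 x ^ d + ∑ k : Fin r, b k.succ x ^ d := by
      intro x
      rw [hF x, Fin.sum_univ_succ]
    by_cases hb0 : b 0 = 0
    · have := ih (fun k => b k.succ) fun x => by
        rw [hF' x, hb0, LinearMap.zero_apply, zero_pow (by omega), zero_add]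
      omega
    by_cases hprop : ∃ k : Fin r, b k.succ ∈ Submodule.span ℂ {b 0}
    · obtain ⟨k, hk⟩ := hprop
      obtain ⟨c, hc⟩ := Submodule.mem_span_singleton.1 hk
      obtain ⟨e, he⟩ := IsAlgClosed.exists_pow_nat_eq (1 + c ^ d) (by omega : 0 < d)
      have := ih (Function.update (fun k : Fin r => b k.succ) k (e • b 0)) fun x => by
        rw [hF' x, ← add_sum_erase _ _ (mem_univ k), ← add_sum_erase _ _ (mem_univ k)]
        rw [Function.update_self]
        have h1 : ∑ j ∈ univ.erase k, (Function.update (fun k : Fin r => b k.succ) k (e • b 0)) j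
            x ^ d = ∑ j ∈ univ.erase k, b j.succ x ^ d := by
          refine sum_congr rfl fun j hj => ?_
          rw [Function.update_of_ne (ne_of_mem_erase hj)]
        rw [h1, ← hc, LinearMap.smul_apply, LinearMap.smul_apply, smul_eq_mul, smul_eq_mul,
          mul_pow, mul_pow, he]
        ring
      omega
    by_cases hrd : r ≤ d
    swap
    · omega
    push Not at hprop
    have hspan := span_of a (b 0) (fun k : Fin r => b k.succ) hF' hb0 hprop hrd
    by_cases hr0 : r = 0
    · -- all `a i` are multiples of `b 0`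
      exfalso
      subst hr0
      obtain ⟨s, _, hs⟩ := exists_subset_card_eq (s := (univ : Finset (Fin d))) (n := 3)
        (by simpa using hd)
      have h1 := ha s hs
      have h2 : finrank ℂ (Submodule.span ℂ (Set.range fun i : s => a i)) = 3 := by
        rw [finrank_span_eq_card h1, Fintype.card_coe, hs]
      have h3 : Submodule.span ℂ (Set.range fun i : s => a i) ≤ Submodule.span ℂ {b 0} := by
        rw [Submodule.span_le]
        rintro _ ⟨i, rfl⟩
        rcases hspan i with h | ⟨k, _⟩
        · exact h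
        · exact k.elim0
      have h4 := Submodule.finrank_mono h3
      have h5 : finrank ℂ (Submodule.span ℂ {b 0}) ≤ 1 := by
        have h6 := finrank_span_finset_le_card (R := ℂ) ({b 0} : Finset (Dual ℂ E))
        rw [coe_singleton, card_singleton] at h6
        exact h6
      omega
    have hspan' : ∀ i, ∃ k : Fin r, a i ∈ Submodule.span ℂ {b 0, b k.succ} := by
      intro i
      rcases hspan i with h | h
      · exact ⟨⟨0, by omega⟩, Submodule.span_mono (by simp) h⟩
      · exact h
    choose f hf using hspan'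
    have hfib : ∀ k ∈ (univ : Finset (Fin d)).image f,
        ((univ : Finset (Fin d)).filter (fun i => f i = k)).card ≤ 2 := by
      intro k _
      by_contra hcon
      push Not at hcon
      obtain ⟨s, hsub, hs⟩ := exists_subset_card_eq (show 3 ≤ _ from hcon)
      have h1 := ha s hs
      have h2 : finrank ℂ (Submodule.span ℂ (Set.range fun i : s => a i)) = 3 := by
        rw [finrank_span_eq_card h1, Fintype.card_coe, hs]
      have h3 : Submodule.span ℂ (Set.range fun i : s => a i) ≤
          Submodule.span ℂ {b 0, b k.succ} := by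
        rw [Submodule.span_le]
        rintro _ ⟨i, rfl⟩
        have h4 : f i = k := (mem_filter.1 (hsub i.2)).2
        rw [← h4]
        exact hf i
      have h4 := Submodule.finrank_mono h3
      classical
      have h5 : finrank ℂ (Submodule.span ℂ {b 0, b k.succ}) ≤ 2 := by
        have h6 := finrank_span_finset_le_card (R := ℂ) ({b 0, b k.succ} : Finset (Dual ℂ E))
        have h7 : ({b 0, b k.succ} : Finset (Dual ℂ E)).card ≤ 2 := card_le_two
        rw [coe_insert, coe_singleton] at h6
        exact h6.trans h7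
      omega
    have h1 := card_le_mul_card_image (univ : Finset (Fin d)) 2 hfib
    have h2 : ((univ : Finset (Fin d)).image f).card ≤ r := by
      have := card_le_univ ((univ : Finset (Fin d)).image f)
      rwa [Fintype.card_fin] at this
    rw [card_univ, Fintype.card_fin] at h1
    omega

end Dual

end Pool.Agent.KS6_56.WR
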