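import Pool.Agent.KS6_56.WR.Ind

/-!
# The bounds in all dimensions
-/

set_option autoImplicit false

namespace Pool.Agent.KS6_56.WR

open Finset Module

theorem gen_three {E : Type} [AddCommGroup E] [Module ℂ E] {n d : ℕ} (hn : 2 ≤ n)
    {a : Fin d → Dual ℂ E} (ha : Gen n a) (s : Finset (Fin d)) (hs : s.card = 3) :
    LinearIndependent ℂ (fun i : s => a i) := by
  obtain ⟨t, hst, _, ht⟩ := exists_subsuperset_card_eq (s := s) (t := univ) (n := n + 1)
    (subset_univ _) (by omega) (by rw [card_univ, Fintype.card_fin]; exact ha.1)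
  have h1 : LinearIndepOn ℂ a (t : Set (Fin d)) := ha.2 t ht
  exact h1.mono (by exact_mod_cast hst)

theorem main_bound (k : ℕ) : ∀ (E : Type) [AddCommGroup E] [Module ℂ E] [FiniteDimensional ℂ E]
    (d : ℕ) (a : Fin d → Dual ℂ E), Gen (k + 2) a → ∀ r, HasW (fun x : E => ∏ i, a i x) d r →
      bd k d ≤ r := by
  induction k with
  | zero =>
    intro E _ _ _ d a ha r ⟨m, hm⟩
    have h1 := bound (by have := ha.1; omega) a (gen_three le_rfl ha) r m hm
    change (d + 3) / 2 ≤ r
    omega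
  | succ k ih =>
    classical
    intro E _ _ _ d a ha r hr
    have hex : ∃ s, HasW (fun x : E => ∏ i, a i x) d s := ⟨r, hr⟩
    obtain ⟨m, hm⟩ := Nat.find_spec hex
    have hmin : ∀ s, HasW (fun x : E => ∏ i, a i x) d s → Nat.find hex ≤ s :=
      fun s hs => Nat.find_min' hex hs
    refine le_trans ?_ (hmin r hr)
    obtain ⟨d', rfl⟩ : ∃ d', d = d' + 1 := ⟨d - 1, by have := ha.1; omega⟩
    have hg : Gen (k + 2) (fun i : Fin d' => (a i.succ).domRestrict (LinearMap.ker (a 0))) :=
      gen_restrict ha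
    rcases ind_step (by omega) a ha (bd k d') (fun s hs => ih _ _ _ hg s hs) _ m hm hmin with h | h
    · exact (min_le_left _ _).trans h
    · exact (min_le_right _ _).trans h

theorem bd_one (d : ℕ) (hd : 4 ≤ d) : d + 1 ≤ bd 1 d := by
  change d + 1 ≤ min (2 * d + 2) (2 * ((d - 1 + 3) / 2))
  rw [le_min_iff]
  omega

theorem bd_two (d : ℕ) (hd : 5 ≤ d) : 2 * d ≤ bd 2 d := by
  have h1 := bd_one (d - 1) (by omega)
  change 2 * d ≤ min (2 * d + 2) (2 * bd 1 (d - 1))
  rw [le_min_iff]
  omega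

theorem bd_three (k d : ℕ) (hd : 6 + k ≤ d) : 2 * d + 2 ≤ bd (k + 3) d := by
  induction k generalizing d with
  | zero =>
    have h1 := bd_two (d - 1) (by omega)
    change 2 * d + 2 ≤ min (2 * d + 2) (2 * bd 2 (d - 1))
    rw [le_min_iff]
    omega
  | succ k ih =>
    have h1 := ih (d - 1) (by omega)
    change 2 * d + 2 ≤ min (2 * d + 2) (2 * bd (k + 3) (d - 1))
    rw [le_min_iff]
    omega

end Pool.Agent.KS6_56.WR
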