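import Pool.Agent.KS6_56.WR.Sep

/-!
# At most half of a minimal Waring decomposition lies in a subspace missing some factor
-/

set_option autoImplicit false

namespace Pool.Agent.KS6_56.WR

open Finset Module

variable {E : Type} [AddCommGroup E] [Module ℂ E]

/-- the function `F` is a sum of `r` powers of degree `d` of linear forms -/
def HasW (F : E → ℂ) (d r : ℕ) : Prop :=
  ∃ m : Fin r → Dual ℂ E, ∀ x, F x = ∑ j, m j x ^ d

theorem hasW_of_sum {ι : Type} (S : Finset ι) {F : E → ℂ} {d : ℕ} (hd : 0 < d) (c : ι → ℂ)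
    (p : ι → Dual ℂ E) (h : ∀ x, F x = ∑ k ∈ S, c k * p k x ^ d) : HasW F d S.card := by
  have hroot : ∀ k, ∃ z : ℂ, z ^ d = c k := fun k => IsAlgClosed.exists_pow_nat_eq (c k) hd
  choose z hz using hroot
  refine ⟨fun j => z (S.equivFin.symm j) • p (S.equivFin.symm j), fun x => ?_⟩
  rw [h x, ← sum_coe_sort S (fun k => c k * p k x ^ d),
    ← Equiv.sum_comp S.equivFin.symm (fun k : S => c k * p k x ^ d)]
  refine sum_congr rfl fun j _ => ?_
  rw [LinearMap.smul_apply, smul_eq_mul, mul_pow, hz]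

theorem exists_dual {Y : Submodule ℂ (Dual ℂ E)} [FiniteDimensional ℂ E] {f : Dual ℂ E}
    (hf : f ∉ Y) : ∃ u, f u = 1 ∧ ∀ φ ∈ Y, φ u = 0 := by
  have h1 : ∃ u ∈ Y.dualCoannihilator, f u ≠ 0 := by
    by_contra hcon
    push Not at hcon
    apply hf
    rw [← Subspace.dualCoannihilator_dualAnnihilator_eq (W := Y)]
    rw [Submodule.mem_dualAnnihilator]
    exact hcon
  obtain ⟨u, hu, hfu⟩ := h1
  rw [Submodule.mem_dualCoannihilator] at hu
  refine ⟨(f u)⁻¹ • u, ?_, fun φ hφ => ?_⟩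
  · rw [map_smul, smul_eq_mul, inv_mul_cancel₀ hfu]
  · rw [map_smul, hu φ hφ, smul_zero]

theorem half [FiniteDimensional ℂ E] {d e r : ℕ} (hd : 0 < d) (a : Fin e → Dual ℂ E)
    (m : Fin r → Dual ℂ E) (hF : ∀ x, ∏ i, a i x = ∑ j, m j x ^ d)
    (hmin : ∀ s, HasW (fun x : E => ∏ i, a i x) d s → r ≤ s)
    (Y : Submodule ℂ (Dual ℂ E)) (i : Fin e) (hi : a i ∉ Y) (C : Finset (Fin r))
    (hC : ∀ j ∈ C, m j ∈ Y) : 2 * C.card ≤ r := by
  classical
  obtain ⟨u, hu1, hu⟩ := exists_dual hi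
  have h1 : ∀ x, ∑ j ∈ C, m j x ^ d + ∑ j ∈ Cᶜ, m j (x - a i x • u) ^ d = 0 := by
    intro x
    have h2 := hF (x - a i x • u)
    rw [prod_eq_zero (mem_univ i) (by
      rw [map_sub, map_smul, hu1, smul_eq_mul, mul_one, sub_self])] at h2
    rw [← sum_add_sum_compl C] at h2
    rw [h2]
    congr 1
    refine sum_congr rfl fun j hj => ?_
    rw [map_sub, map_smul, hu _ (hC j hj), smul_zero, sub_zero]
  have h3 : HasW (fun x : E => ∏ i, a i x) d (Cᶜ.disjSum Cᶜ).card := by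
    refine hasW_of_sum (Cᶜ.disjSum Cᶜ) hd (Sum.elim (fun _ => 1) (fun _ => -1))
      (Sum.elim m (fun j => m j - m j u • a i)) fun x => ?_
    rw [sum_disjSum]
    simp only [Sum.elim_inl, Sum.elim_inr, one_mul, neg_one_mul, sum_neg_distrib]
    rw [hF x, ← sum_add_sum_compl C]
    have h4 := h1 x
    have h5 : ∑ j ∈ Cᶜ, m j (x - a i x • u) ^ d = ∑ j ∈ Cᶜ, (m j - m j u • a i) x ^ d := by
      refine sum_congr rfl fun j _ => ?_
      rw [map_sub, map_smul, LinearMap.sub_apply, LinearMap.smul_apply, smul_eq_mul, smul_eq_mul,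
        mul_comm]
    rw [h5] at h4
    linear_combination h4
  have h6 := hmin _ h3
  rw [card_disjSum, card_compl, Fintype.card_fin] at h6
  have h7 : C.card ≤ r := by
    have := card_le_univ C
    rwa [Fintype.card_fin] at this
  omega

end Pool.Agent.KS6_56.WR
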