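import Pool.Agent.KS6_56.WR.Main

/-!
# The main theorem on the Waring rank of generic arrangements
-/

set_option autoImplicit false

namespace Pool.Agent.KS6_56.WR

open Finset Module

theorem finrank_span_three {E : Type} [AddCommGroup E] [Module ℂ E] (f g h : Dual ℂ E) :
    finrank ℂ (Submodule.span ℂ ({f, g, h} : Set (Dual ℂ E))) ≤ 3 := by
  classical
  have h6 := finrank_span_finset_le_card (R := ℂ) ({f, g, h} : Finset (Dual ℂ E))
  have h7 : ({f, g, h} : Finset (Dual ℂ E)).card ≤ 3 := card_le_three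
  rw [coe_insert, coe_insert, coe_singleton] at h6
  exact h6.trans h7

/-- one induction step -/
theorem ind_step {E : Type} [AddCommGroup E] [Module ℂ E] [FiniteDimensional ℂ E] {n d : ℕ}
    (hn : 2 ≤ n) (a : Fin (d + 1) → Dual ℂ E) (ha : Gen (n + 1) a) (B : ℕ)
    (ih : ∀ s, HasW (fun x : LinearMap.ker (a 0) =>
      ∏ i : Fin d, (a i.succ).domRestrict (LinearMap.ker (a 0)) x) d s → B ≤ s)
    (r : ℕ) (m : Fin r → Dual ℂ E) (hF : ∀ x, ∏ i, a i x = ∑ j, m j x ^ (d + 1))
    (hmin : ∀ s, HasW (fun x : E => ∏ i, a i x) (d + 1) s → r ≤ s) :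
    2 * (d + 1) + 2 ≤ r ∨ 2 * B ≤ r := by
  classical
  have hd0 : 0 < d := by have := ha.1; omega
  by_cases hr : 2 * (d + 1) + 2 ≤ r
  · exact Or.inl hr
  right
  rw [not_le] at hr
  obtain ⟨w, hw⟩ := exists_one ha
  let W := LinearMap.ker (a 0)
  let p : Fin r → Dual ℂ W := fun j => (m j).domRestrict W
  have hp : ∀ j (x : W), p j x = m j x := fun j x => rfl
  -- representatives
  rcases Nat.eq_zero_or_pos r with hr0 | hr0
  · exfalso
    subst hr0
    have h1 := hmin 0 ⟨m, hF⟩
    have h2 : 2 * (∅ : Finset (Fin 0)).card ≤ 0 := by simp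
    -- a nonzero product
    have hne : ∀ i, ∃ x, a i x ≠ 0 := by
      intro i
      obtain ⟨s, his, hs⟩ : ∃ s : Finset (Fin (d + 1)), i ∈ s ∧ s.card = n + 1 + 1 := by
        obtain ⟨s, h1, _, h3⟩ := exists_subsuperset_card_eq (s := {i}) (t := univ)
          (n := n + 1 + 1) (subset_univ _) (by simp) (by simpa using ha.1)
        exact ⟨s, h1 (mem_singleton_self i), h3⟩
      have h1 : LinearIndependent ℂ (fun i : s => a i) := ha.2 s hs
      have h1 := h1.ne_zero ⟨i, his⟩
      by_contra hcon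
      push Not at hcon
      exact h1 (LinearMap.ext hcon)
    obtain ⟨x, hx⟩ := Module.Dual.exists_forall_ne_zero_of_forall_exists a hne
    refine (prod_ne_zero_iff.2 fun i _ => hx i) ((hF x).trans ?_)
    simp
  haveI : Nonempty (Fin r) := ⟨⟨0, hr0⟩⟩
  let sp : Fin r → Submodule ℂ (Dual ℂ W) := fun j => Submodule.span ℂ {p j}
  let ρ : Fin r → Fin r := fun j => Function.invFun sp (sp j)
  have hρ : ∀ j, sp (ρ j) = sp j := fun j => Function.invFun_eq ⟨j, rfl⟩
  have hρρ : ∀ j j', sp j = sp j' → ρ j = ρ j' := by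
    intro j j' h
    simp only [ρ, h]
  let N : Finset (Fin r) := univ.filter fun j => p j ≠ 0
  let S : Finset (Fin r) := N.image ρ
  have hmaps : ∀ j ∈ N, ρ j ∈ S := fun j hj => mem_image_of_mem _ hj
  have hρ0 : ∀ j, p j ≠ 0 → p (ρ j) ≠ 0 := by
    intro j hj h0
    apply hj
    have h1 : p j ∈ sp (ρ j) := by
      rw [hρ]
      exact Submodule.mem_span_singleton_self _
    obtain ⟨c, hc⟩ := Submodule.mem_span_singleton.1 h1
    rw [← hc, h0, smul_zero]
  have hlam : ∀ j, ∃ c : ℂ, p j = c • p (ρ j) := by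
    intro j
    have h1 : p j ∈ sp (ρ j) := by
      rw [hρ]
      exact Submodule.mem_span_singleton_self _
    obtain ⟨c, hc⟩ := Submodule.mem_span_singleton.1 h1
    exact ⟨c, hc.symm⟩
  choose lam hlam using hlam
  have hS : ∀ k ∈ S, p k ≠ 0 ∧ ρ k = k := by
    intro k hk
    obtain ⟨j, hj, rfl⟩ := mem_image.1 hk
    exact ⟨hρ0 j (mem_filter.1 hj).2, hρρ _ _ (hρ j)⟩
  have hSN : ∀ k ∈ S, k ∈ N := fun k hk => mem_filter.2 ⟨mem_univ _, (hS k hk).1⟩
  have hSind : ∀ k ∈ S, ∀ k' ∈ S, k ≠ k' → p k' ∉ Submodule.span ℂ {p k} := by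
    intro k hk k' hk' hne hmem
    obtain ⟨c, hc⟩ := Submodule.mem_span_singleton.1 hmem
    have hc0 : c ≠ 0 := by
      intro h0
      apply (hS k' hk').1
      rw [← hc, h0, zero_smul]
    apply hne
    rw [← (hS k hk).2, ← (hS k' hk').2]
    apply hρρ
    change Submodule.span ℂ {p k} = Submodule.span ℂ {p k'}
    rw [← hc, Submodule.span_singleton_smul_eq (IsUnit.mk0 c hc0)]
  let c : Fin r → ℂ := fun k => ∑ j ∈ N with ρ j = k, lam j ^ (d + 1)
  have hsum : ∀ x : W, ∑ k ∈ S, c k * p k x ^ (d + 1) = 0 := by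
    intro x
    have h1 := hF x
    have hx : a 0 (x : E) = 0 := x.2
    rw [prod_eq_zero (mem_univ 0) hx] at h1
    have h2 : ∑ j, m j (x : E) ^ (d + 1) = ∑ j ∈ N, p j x ^ (d + 1) := by
      rw [sum_filter]
      refine sum_congr rfl fun j _ => ?_
      split_ifs with h3
      · rfl
      · rw [not_not] at h3
        rw [← hp, h3, LinearMap.zero_apply, zero_pow (Nat.succ_ne_zero d)]
    rw [h2, ← sum_fiberwise_of_maps_to hmaps] at h1
    rw [h1]
    refine sum_congr rfl fun k _ => ?_
    rw [sum_mul]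
    refine sum_congr rfl fun j hj => ?_
    rw [hlam j, (mem_filter.1 hj).2, LinearMap.smul_apply, smul_eq_mul, mul_pow]
  have hScard : S.card ≤ r := by
    have := card_le_univ S
    rwa [Fintype.card_fin] at this
  by_cases hbad : ∃ k₀ ∈ S, c k₀ ≠ 0
  · -- many forms in one plane
    exfalso
    obtain ⟨k₀, hk₀, hc⟩ := hbad
    obtain ⟨k₁, hk₁, C, hCS, hk₀C, hCcard, hC⟩ := heavy S c p (d + 1) (by omega) hsum k₀ hk₀ hc
      (hS k₀ hk₀).1 (fun k hk hne => hSind k hk k₀ hk₀ hne) (by omega)
    let Y : Submodule ℂ (Dual ℂ E) := Submodule.span ℂ {a 0, m k₀, m k₁}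
    have hYm : ∀ j, p j ∈ Submodule.span ℂ {p k₀, p k₁} → m j ∈ Y := by
      intro j hj
      obtain ⟨s, t, hst⟩ := Submodule.mem_span_pair.1 hj
      have h1 : m j - (s • m k₀ + t • m k₁) ∈ Submodule.span ℂ {a 0} := by
        apply mem_span_of_restrict
        intro x hx
        have h2 := LinearMap.congr_fun hst ⟨x, hx⟩
        rw [LinearMap.add_apply, LinearMap.smul_apply, LinearMap.smul_apply, hp, hp, hp] at h2
        rw [LinearMap.sub_apply, LinearMap.add_apply, LinearMap.smul_apply, LinearMap.smul_apply,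
          h2, sub_self]
      have h2 : m j = (m j - (s • m k₀ + t • m k₁)) + (s • m k₀ + t • m k₁) := by abel
      rw [h2]
      refine Y.add_mem (Submodule.span_mono (by simp) h1) (Y.add_mem (Y.smul_mem _ ?_)
        (Y.smul_mem _ ?_))
      · exact Submodule.subset_span (by simp)
      · exact Submodule.subset_span (by simp)
    obtain ⟨i, hi⟩ := exists_notMem ha (by omega) Y (finrank_span_three _ _ _)
    have h1 := half (Nat.succ_pos d) a m hF hmin Y i hi (insert k₀ C) (by
      intro j hj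
      rcases mem_insert.1 hj with rfl | hj
      · exact Submodule.subset_span (by simp)
      · exact hYm j (hC j hj))
    rw [card_insert_of_notMem hk₀C] at h1
    omega
  · -- all classes have at least two elements
    push Not at hbad
    have hfib : ∀ k ∈ S, 2 ≤ (N.filter fun j => ρ j = k).card := by
      intro k hk
      have hkN : k ∈ N.filter fun j => ρ j = k := mem_filter.2 ⟨hSN k hk, (hS k hk).2⟩
      by_contra hlt
      have h1 : (N.filter fun j => ρ j = k).card = 1 := by
        have := card_pos.2 ⟨k, hkN⟩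
        omega
      obtain ⟨k', hk'⟩ := card_eq_one.1 h1
      have h2 : k = k' := by
        rw [hk'] at hkN
        exact mem_singleton.1 hkN
      have h3 : c k = lam k ^ (d + 1) := by
        change ∑ j ∈ N.filter (fun j => ρ j = k), lam j ^ (d + 1) = _
        rw [hk', sum_singleton, h2]
      have h4 := hbad k hk
      rw [h3] at h4
      have h5 : lam k = 0 := pow_eq_zero_iff (Nat.succ_ne_zero d) |>.1 h4
      apply (hS k hk).1
      rw [hlam k, h5, zero_smul]
    have h1 : 2 * S.card ≤ N.card := by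
      rw [mul_comm, card_eq_sum_card_fiberwise hmaps, ← smul_eq_mul]
      exact card_nsmul_le_sum _ _ _ hfib
    have h2 : N.card ≤ r := by
      have := card_le_univ N
      rwa [Fintype.card_fin] at this
    have h3 : B ≤ S.card := by
      apply ih
      refine hasW_of_sum S hd0
        (fun k => ∑ j ∈ N with ρ j = k, ((d : ℂ) + 1) * m j w * lam j ^ d) p fun x => ?_
      have hx : a 0 (x : E) = 0 := x.2
      have h4 := deriv_formula a m hF w hw x hx
      change ∏ i : Fin d, a i.succ (x : E) = _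
      rw [h4]
      have h5 : ∑ j, ((d : ℂ) + 1) * m j w * m j (x : E) ^ d =
          ∑ j ∈ N, ((d : ℂ) + 1) * m j w * p j x ^ d := by
        rw [sum_filter]
        refine sum_congr rfl fun j _ => ?_
        split_ifs with h3
        · rfl
        · rw [not_not] at h3
          rw [← hp, h3, LinearMap.zero_apply, zero_pow hd0.ne', mul_zero]
      rw [h5, ← sum_fiberwise_of_maps_to hmaps]
      refine sum_congr rfl fun k _ => ?_
      rw [sum_mul]
      refine sum_congr rfl fun j hj => ?_
      rw [hlam j, (mem_filter.1 hj).2, LinearMap.smul_apply, smul_eq_mul, mul_pow]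
      ring
    omega

end Pool.Agent.KS6_56.WR
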