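import Pool.Agent.KS6_56.WR.Half
import Pool.Agent.KS6_56.WR.Base

/-!
# The induction on the dimension
-/

set_option autoImplicit false

namespace Pool.Agent.KS6_56.WR

open Finset Module

/-- the bound: `bd k d` bounds the rank of generic arrangements of `d` hyperplanes in `ℙ^(k+2)` -/
def bd : ℕ → ℕ → ℕ
  | 0, d => (d + 3) / 2
  | k + 1, d => min (2 * d + 2) (2 * bd k (d - 1))

/-- any `n + 1` of the `d ≥ n + 1` functionals are linearly independent -/
def Gen {E : Type} [AddCommGroup E] [Module ℂ E] (n : ℕ) {d : ℕ} (a : Fin d → Dual ℂ E) : Prop :=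
  n + 1 ≤ d ∧ ∀ s : Finset (Fin d), s.card = n + 1 → LinearIndepOn ℂ a (s : Set (Fin d))

variable {E : Type} [AddCommGroup E] [Module ℂ E]

theorem mem_span_of_restrict {a f : Dual ℂ E} (h : ∀ x, a x = 0 → f x = 0) :
    f ∈ Submodule.span ℂ {a} := by
  have h2 : f ∈ Submodule.span ℂ (Set.range ![a]) := by
    apply mem_span_of_iInf_ker_le_ker
    intro x hx
    simp only [Submodule.mem_iInf, LinearMap.mem_ker, Fin.forall_fin_one] at hx
    exact h x hx
  simpa only [Matrix.range_cons, Matrix.range_empty, Set.union_empty] using h2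

theorem gen_restrict {n d : ℕ} {a : Fin (d + 1) → Dual ℂ E} (h : Gen (n + 1) a) :
    Gen n (fun i : Fin d => (a i.succ).domRestrict (LinearMap.ker (a 0))) := by
  classical
  refine ⟨by have := h.1; omega, fun s hs => ?_⟩
  let T : Finset (Fin (d + 1)) := insert 0 (s.map (Fin.succEmb d))
  have h0 : (0 : Fin (d + 1)) ∉ s.map (Fin.succEmb d) := by
    intro hmem
    obtain ⟨j, _, hj⟩ := mem_map.1 hmem
    exact Fin.succ_ne_zero j hj
  have hT : T.card = n + 1 + 1 := by
    rw [card_insert_of_notMem h0, card_map, hs]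
  have h1 := linearIndepOn_finset_iff.1 (h.2 T hT)
  rw [linearIndepOn_finset_iff]
  intro f hf i hi
  have h2 : ∑ j ∈ s, f j • a j.succ ∈ Submodule.span ℂ {a 0} := by
    apply mem_span_of_restrict
    intro x hx
    have h3 := LinearMap.congr_fun hf ⟨x, hx⟩
    simp only [LinearMap.sum_apply, LinearMap.smul_apply, LinearMap.domRestrict_apply,
      LinearMap.zero_apply] at h3 ⊢
    exact h3
  obtain ⟨c, hc⟩ := Submodule.mem_span_singleton.1 h2
  have h4 := h1 (Fin.cons (-c) f) (by
    rw [sum_insert h0, sum_map]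
    simp only [Fin.cons_zero, Fin.coe_succEmb, Fin.cons_succ]
    rw [← hc, neg_smul, neg_add_cancel]) i.succ (by
      rw [mem_insert]
      exact Or.inr (mem_map.2 ⟨i, hi, rfl⟩))
  simpa using h4

/-- some factor is outside of every subspace of dimension at most three -/
theorem exists_notMem {n d : ℕ} {a : Fin d → Dual ℂ E} (h : Gen n a) (hn : 3 ≤ n)
    (Y : Submodule ℂ (Dual ℂ E)) [FiniteDimensional ℂ Y] (hY : finrank ℂ Y ≤ 3) :
    ∃ i, a i ∉ Y := by
  by_contra hcon
  push Not at hcon
  obtain ⟨s, _, hs⟩ := exists_subset_card_eq (s := (univ : Finset (Fin d))) (n := n + 1)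
    (by simpa using h.1)
  have h1 : LinearIndependent ℂ (fun i : s => a i) := h.2 s hs
  have h2 : finrank ℂ (Submodule.span ℂ (Set.range fun i : s => a i)) = n + 1 := by
    rw [finrank_span_eq_card h1, Fintype.card_coe, hs]
  have h3 : Submodule.span ℂ (Set.range fun i : s => a i) ≤ Y := by
    rw [Submodule.span_le]
    rintro _ ⟨i, rfl⟩
    exact hcon i
  have h4 := Submodule.finrank_mono h3
  omega

theorem exists_one {n d : ℕ} {a : Fin (d + 1) → Dual ℂ E} (h : Gen n a) : ∃ w, a 0 w = 1 := by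
  have h0 : a 0 ≠ 0 := by
    obtain ⟨s, his, hs⟩ : ∃ s : Finset (Fin (d + 1)), (0 : Fin (d + 1)) ∈ s ∧ s.card = n + 1 := by
      obtain ⟨s, h1, _, h3⟩ := exists_subsuperset_card_eq (s := {(0 : Fin (d + 1))}) (t := univ)
        (n := n + 1) (subset_univ _) (by simp) (by simpa using h.1)
      exact ⟨s, h1 (mem_singleton_self _), h3⟩
    have h1 : LinearIndependent ℂ (fun i : s => a i) := h.2 s hs
    exact h1.ne_zero ⟨0, his⟩
  obtain ⟨w, hw⟩ : ∃ w, a 0 w ≠ 0 := by
    by_contra hno
    push Not at hno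
    exact h0 (LinearMap.ext hno)
  exact ⟨(a 0 w)⁻¹ • w, by rw [map_smul, smul_eq_mul, inv_mul_cancel₀ hw]⟩

/-- the derivative transversal to the hyperplane `a 0 = 0` -/
theorem deriv_formula {d r : ℕ} (a : Fin (d + 1) → Dual ℂ E) (m : Fin r → Dual ℂ E)
    (hF : ∀ x, ∏ i, a i x = ∑ j, m j x ^ (d + 1)) (w : E) (hw : a 0 w = 1) (x : E)
    (hx : a 0 x = 0) :
    ∏ i : Fin d, a i.succ x = ∑ j, ((d : ℂ) + 1) * m j w * m j x ^ d := by
  let Q : Polynomial ℂ := ∑ j, (Polynomial.C (m j x) + Polynomial.X * Polynomial.C (m j w)) ^ (d + 1)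
  let R : Polynomial ℂ := Polynomial.X *
    ∏ i : Fin d, (Polynomial.C (a i.succ x) + Polynomial.X * Polynomial.C (a i.succ w))
  have hQR : Q = R := by
    apply Polynomial.funext
    intro t
    have h1 := hF (x + t • w)
    rw [Fin.prod_univ_succ] at h1
    simp only [map_add, map_smul, smul_eq_mul, hx, hw, zero_add, mul_one] at h1
    simp only [Q, R, Polynomial.eval_finsetSum, Polynomial.eval_mul, Polynomial.eval_C,
      Polynomial.eval_pow, Polynomial.eval_add, Polynomial.eval_X, Polynomial.eval_prod]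
    exact h1.symm
  have h1 : (Polynomial.derivative Q).eval 0 = (Polynomial.derivative R).eval 0 := by rw [hQR]
  have h2 : (Polynomial.derivative R).eval 0 = ∏ i : Fin d, a i.succ x := by
    simp only [R, Polynomial.derivative_mul, Polynomial.derivative_X, one_mul,
      Polynomial.eval_add, Polynomial.eval_mul, Polynomial.eval_X, zero_mul, add_zero,
      Polynomial.eval_prod, Polynomial.eval_C]
  rw [h2] at h1
  rw [← h1]
  simp only [Q, Polynomial.derivative_sum, Polynomial.derivative_mul, Polynomial.derivative_C,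
    Polynomial.derivative_pow, Polynomial.derivative_add, Polynomial.derivative_X, zero_mul,
    zero_add, mul_zero, add_zero, one_mul, Polynomial.eval_finsetSum, Polynomial.eval_mul,
    Polynomial.eval_C, Polynomial.eval_pow, Polynomial.eval_add, Polynomial.eval_X,
    Nat.add_sub_cancel]
  refine sum_congr rfl fun j _ => ?_
  push_cast
  ring

end Pool.Agent.KS6_56.WR
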