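import Mathlib

/-!
# Independence of powers of linear forms

If `∑ c_k p_k ^ d = 0`, `c_{k₀} ≠ 0`, and at most `2 d` other coefficients are non-zero, then at
least `d + 1` other `p_k` lie in one plane through `p_{k₀}`.
-/

set_option autoImplicit false

namespace Pool.Agent.KS6_56.WR

open Finset Module

variable {E : Type} [AddCommGroup E] [Module ℂ E]

theorem step {ι : Type} (S : Finset ι) (c : ι → ℂ) (p : ι → Dual ℂ E) (m : ℕ)
    (h : ∀ x, ∑ k ∈ S, c k * p k x ^ (m + 1) = 0) (v x : E) :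
    ∑ k ∈ S, c k * p k v * p k x ^ m = 0 := by
  let Q : Polynomial ℂ := ∑ k ∈ S, Polynomial.C (c k) *
    (Polynomial.C (p k x) + Polynomial.X * Polynomial.C (p k v)) ^ (m + 1)
  have hQ : Q = 0 := by
    apply Polynomial.funext
    intro t
    rw [Polynomial.eval_zero, ← h (x + t • v)]
    simp only [Q, Polynomial.eval_finsetSum, Polynomial.eval_mul, Polynomial.eval_C,
      Polynomial.eval_pow, Polynomial.eval_add, Polynomial.eval_X, map_add, map_smul, smul_eq_mul]
  have h1 : (Polynomial.derivative Q).eval 0 = 0 := by rw [hQ]; simp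
  simp only [Q, Polynomial.derivative_sum, Polynomial.derivative_mul, Polynomial.derivative_C,
    Polynomial.derivative_pow, Polynomial.derivative_add, Polynomial.derivative_X, zero_mul,
    zero_add, mul_zero, add_zero, one_mul, Polynomial.eval_finsetSum, Polynomial.eval_mul,
    Polynomial.eval_C, Polynomial.eval_pow, Polynomial.eval_add, Polynomial.eval_X,
    Nat.add_sub_cancel] at h1
  have h2 : ((m : ℂ) + 1) * ∑ k ∈ S, c k * p k v * p k x ^ m = 0 := by
    rw [← h1, mul_sum]
    refine sum_congr rfl fun k _ => ?_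
    push_cast
    ring
  exact (mul_eq_zero.1 h2).resolve_left (Nat.cast_add_one_ne_zero m)

theorem polar {ι : Type} (S : Finset ι) (p : ι → Dual ℂ E) (m : ℕ) :
    ∀ (c : ι → ℂ), (∀ x, ∑ k ∈ S, c k * p k x ^ m = 0) → ∀ v : Fin m → E,
    ∑ k ∈ S, c k * ∏ t, p k (v t) = 0 := by
  induction m with
  | zero =>
    intro c h v
    simpa using h 0
  | succ m ih =>
    intro c h v
    have h1 := ih (fun k => c k * p k (v 0)) (fun x => step S c p m h (v 0) x) (fun t => v t.succ)
    rw [← h1]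
    refine sum_congr rfl fun k _ => ?_
    rw [Fin.prod_univ_succ]
    ring

theorem sep {ι : Type} [DecidableEq ι] (S : Finset ι) (c : ι → ℂ) (p : ι → Dual ℂ E) (m : ℕ)
    (h : ∀ x, ∑ k ∈ S, c k * p k x ^ m = 0) (k₀ : ι) (hk₀ : k₀ ∈ S) (g : ι → Fin m)
    (hg : ∀ t, ∃ v, p k₀ v ≠ 0 ∧ ∀ k ∈ S, k ≠ k₀ → c k ≠ 0 → g k = t → p k v = 0) :
    c k₀ = 0 := by
  choose v hv hv' using hg
  have h1 := polar S p m c h v
  rw [← add_sum_erase _ _ hk₀] at h1
  have h2 : ∑ k ∈ S.erase k₀, c k * ∏ t, p k (v t) = 0 := by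
    refine sum_eq_zero fun k hk => ?_
    rw [mem_erase] at hk
    by_cases hc : c k = 0
    · rw [hc, zero_mul]
    · rw [prod_eq_zero (mem_univ (g k)) (hv' _ k hk.2 hk.1 hc rfl), mul_zero]
  rw [h2, add_zero] at h1
  exact (mul_eq_zero.1 h1).resolve_right (prod_ne_zero_iff.2 fun t _ => hv t)

theorem group {ι α : Type} (T : Finset ι) (κ : ι → α) (m : ℕ) (hm : 0 < m)
    (hT : T.card ≤ 2 * m) (hcl : ∀ k ∈ T, ∀ C : Finset ι, C ⊆ T → (∀ k' ∈ C, κ k' = κ k) →
      C.card ≤ m) :
    ∃ g : ι → Fin m, (∀ k ∈ T, ∀ k' ∈ T, k ≠ k' → g k = g k' → κ k ≠ κ k') ∧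
      ∀ k ∈ T, ∀ k' ∈ T, ∀ k'' ∈ T, k ≠ k' → g k = g k' → g k'' = g k → k'' = k ∨ k'' = k' := by
  classical
  letI : LinearOrder α := IsWellOrder.linearOrder WellOrderingRel
  letI : LinearOrder ι := IsWellOrder.linearOrder WellOrderingRel
  let L : ι → α ×ₗ ι := fun k => toLex (κ k, k)
  have hLinj : ∀ k k', L k = L k' → k = k' := by
    intro k k' h
    have := congrArg (fun z => (ofLex z).2) h
    exact this
  let e : ι → ℕ := fun k => (T.filter fun k' => L k' < L k).card
  have he_lt : ∀ k ∈ T, e k < 2 * m := by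
    intro k hk
    refine lt_of_lt_of_le (card_lt_card ?_) hT
    rw [filter_ssubset]
    exact ⟨k, hk, lt_irrefl _⟩
  have he_mono : ∀ k ∈ T, ∀ k' ∈ T, L k < L k' → e k < e k' := by
    intro k hk k' _ hlt
    apply card_lt_card
    rw [ssubset_iff_of_subset]
    · exact ⟨k, mem_filter.2 ⟨hk, hlt⟩, fun h => lt_irrefl _ (mem_filter.1 h).2⟩
    · intro j hj
      rw [mem_filter] at hj ⊢
      exact ⟨hj.1, hj.2.trans hlt⟩
  have he_inj : ∀ k ∈ T, ∀ k' ∈ T, e k = e k' → k = k' := by
    intro k hk k' hk' h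
    by_contra hne
    rcases lt_trichotomy (L k) (L k') with h1 | h1 | h1
    · exact absurd (he_mono k hk k' hk' h1) (by omega)
    · exact hne (hLinj _ _ h1)
    · exact absurd (he_mono k' hk' k hk h1) (by omega)
  have he_cl : ∀ k ∈ T, ∀ k' ∈ T, L k < L k' → κ k = κ k' → e k' < e k + m := by
    intro k hk k' hk' hlt hκ
    have h1 : (T.filter fun j => L j < L k') ⊆ (T.filter fun j => L j < L k) ∪
        ((T.filter fun j => κ j = κ k).erase k') := by
      intro j hj
      rw [mem_filter] at hj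
      rw [mem_union, mem_filter, mem_erase, mem_filter]
      by_cases h2 : L j < L k
      · exact Or.inl ⟨hj.1, h2⟩
      · right
        rw [not_lt] at h2
        refine ⟨fun h3 => ?_, hj.1, ?_⟩
        · rw [h3] at hj
          exact lt_irrefl _ hj.2
        · have h3 : κ k ≤ κ j := by
            rcases (Prod.Lex.toLex_le_toLex.1 h2) with h4 | h4
            · exact h4.le
            · exact h4.1.le
          have h5 : κ j ≤ κ k' := by
            rcases (Prod.Lex.toLex_le_toLex.1 hj.2.le) with h4 | h4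
            · exact h4.le
            · exact h4.1.le
          exact le_antisymm (hκ ▸ h5) h3
    have h2 := (card_le_card h1).trans (card_union_le _ _)
    have h3 : (T.filter fun j => κ j = κ k).card ≤ m :=
      hcl k hk _ (filter_subset _ _) fun j hj => (mem_filter.1 hj).2
    have h4 : k' ∈ T.filter fun j => κ j = κ k := mem_filter.2 ⟨hk', hκ.symm⟩
    rw [card_erase_of_mem h4] at h2
    have h5 : 0 < (T.filter fun j => κ j = κ k).card := card_pos.2 ⟨_, h4⟩
    change (T.filter fun j => L j < L k').card < (T.filter fun j => L j < L k).card + m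
    omega
  let g : ι → Fin m := fun k => ⟨e k % m, Nat.mod_lt _ hm⟩
  have hgmod : ∀ k k', g k = g k' → e k % m = e k' % m := fun k k' h => congrArg Fin.val h
  have hgi : ∀ k ∈ T, ∀ k' ∈ T, g k = g k' → e k / m = e k' / m → k = k' := by
    intro k hk k' hk' h1 h2
    apply he_inj k hk k' hk'
    rw [← Nat.div_add_mod (e k) m, ← Nat.div_add_mod (e k') m, h2, hgmod _ _ h1]
  have hq : ∀ k ∈ T, e k / m < 2 := by
    intro k hk
    rw [Nat.div_lt_iff_lt_mul hm]
    exact he_lt k hk
  have hmain : ∀ k ∈ T, ∀ k' ∈ T, L k < L k' → g k = g k' → κ k ≠ κ k' := by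
    intro k hk k' hk' hlt hgg hκ
    have h1 := he_mono k hk k' hk' hlt
    have h2 := he_cl k hk k' hk' hlt hκ
    have h3 : (e k' - e k) % m = 0 := Nat.sub_mod_eq_zero_of_mod_eq (hgmod _ _ hgg).symm
    rw [Nat.mod_eq_of_lt (by omega)] at h3
    omega
  refine ⟨g, ?_, ?_⟩
  · intro k hk k' hk' hne hgg
    rcases lt_trichotomy (L k) (L k') with h1 | h1 | h1
    · exact hmain k hk k' hk' h1 hgg
    · exact absurd (hLinj _ _ h1) hne
    · exact (hmain k' hk' k hk h1 hgg.symm).symm
  · intro k hk k' hk' k'' hk'' hne hgg hgg'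
    have h1 := hq k hk
    have h2 := hq k' hk'
    have h3 := hq k'' hk''
    have h4 : e k / m ≠ e k' / m := fun h => hne (hgi k hk k' hk' hgg h)
    by_cases h5 : e k'' / m = e k / m
    · exact Or.inl (hgi k'' hk'' k hk hgg' h5)
    · right
      apply hgi k'' hk'' k' hk' (hgg'.trans hgg)
      have h6 : ∀ a b c : ℕ, a < 2 → b < 2 → c < 2 → a ≠ b → c ≠ a → c = b := by
        intro a b c
        omega
      exact h6 _ _ _ h1 h2 h3 h4 h5

theorem exists_kill (p q f : Dual ℂ E) (h : f ∉ Submodule.span ℂ {p, q}) :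
    ∃ v, f v ≠ 0 ∧ p v = 0 ∧ q v = 0 := by
  by_contra hcon
  push Not at hcon
  apply h
  have h2 : f ∈ Submodule.span ℂ (Set.range ![p, q]) := by
    apply mem_span_of_iInf_ker_le_ker
    intro x hx
    simp only [Submodule.mem_iInf, LinearMap.mem_ker, Fin.forall_fin_two] at hx
    by_contra hf
    exact hcon x hf hx.1 hx.2
  simpa only [Matrix.range_cons, Matrix.range_empty, Set.union_empty,
    Set.singleton_union] using h2

theorem heavy {ι : Type} [DecidableEq ι] (S : Finset ι) (c : ι → ℂ) (p : ι → Dual ℂ E) (d : ℕ)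
    (hd : 0 < d) (h : ∀ x, ∑ k ∈ S, c k * p k x ^ d = 0) (k₀ : ι) (hk₀ : k₀ ∈ S)
    (hc : c k₀ ≠ 0) (hp0 : p k₀ ≠ 0)
    (hind : ∀ k ∈ S, k ≠ k₀ → p k₀ ∉ Submodule.span ℂ {p k}) (hr : S.card ≤ 2 * d + 1) :
    ∃ k₁ ∈ S, ∃ C : Finset ι, C ⊆ S ∧ k₀ ∉ C ∧ d + 1 ≤ C.card ∧
      ∀ k ∈ C, p k ∈ Submodule.span ℂ {p k₀, p k₁} := by
  by_contra hcon
  push Not at hcon
  apply hc
  let κ : ι → Submodule ℂ (Dual ℂ E) := fun k => Submodule.span ℂ {p k₀, p k}
  have hT : (S.erase k₀).card ≤ 2 * d := by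
    rw [card_erase_of_mem hk₀]
    omega
  obtain ⟨g, hg1, hg2⟩ := group (S.erase k₀) κ d hd hT (by
    intro k hk C hC hκ
    by_contra hlt
    push Not at hlt
    obtain ⟨j, hj, hj'⟩ := hcon k (mem_of_mem_erase hk) C (hC.trans (erase_subset _ _))
      (fun h0 => (mem_erase.1 (hC h0)).1 rfl) hlt
    apply hj'
    have h1 : p j ∈ κ j := Submodule.subset_span (by simp)
    rw [hκ j hj] at h1
    exact h1)
  refine sep S c p d h k₀ hk₀ g fun t => ?_
  by_cases hex : ∃ k ∈ S, k ≠ k₀ ∧ g k = t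
  · obtain ⟨k, hk, hk0, hkt⟩ := hex
    by_cases hex' : ∃ k' ∈ S, k' ≠ k₀ ∧ g k' = t ∧ k ≠ k'
    · obtain ⟨k', hk', hk0', hkt', hne⟩ := hex'
      have hκ := hg1 k (mem_erase.2 ⟨hk0, hk⟩) k' (mem_erase.2 ⟨hk0', hk'⟩) hne
        (hkt.trans hkt'.symm)
      have hns : p k₀ ∉ Submodule.span ℂ {p k, p k'} := by
        intro hmem
        apply hκ
        obtain ⟨s, u, hsu⟩ := Submodule.mem_span_pair.1 hmem
        have hu : u ≠ 0 := by
          intro hu
          apply hind k hk hk0
          rw [← hsu, hu, zero_smul, add_zero]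
          exact Submodule.smul_mem _ _ (Submodule.mem_span_singleton_self _)
        have hs : s ≠ 0 := by
          intro hs
          apply hind k' hk' hk0'
          rw [← hsu, hs, zero_smul, zero_add]
          exact Submodule.smul_mem _ _ (Submodule.mem_span_singleton_self _)
        apply le_antisymm
        · refine Submodule.span_le.2 ?_
          rintro _ (rfl | rfl)
          · exact Submodule.subset_span (by simp)
          · have : p k = s⁻¹ • p k₀ + (-(s⁻¹ * u)) • p k' := by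
              rw [← hsu, smul_add, smul_smul, smul_smul, inv_mul_cancel₀ hs, one_smul]
              module
            exact Submodule.mem_span_pair.2 ⟨_, _, this.symm⟩
        · refine Submodule.span_le.2 ?_
          rintro _ (rfl | rfl)
          · exact Submodule.subset_span (by simp)
          · have : p k' = u⁻¹ • p k₀ + (-(u⁻¹ * s)) • p k := by
              rw [← hsu, smul_add, smul_smul, smul_smul, inv_mul_cancel₀ hu, one_smul]
              module
            exact Submodule.mem_span_pair.2 ⟨_, _, this.symm⟩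
      obtain ⟨v, hv0, hv1, hv2⟩ := exists_kill _ _ _ hns
      refine ⟨v, hv0, fun j hj hj0 _ hjt => ?_⟩
      rcases hg2 k (mem_erase.2 ⟨hk0, hk⟩) k' (mem_erase.2 ⟨hk0', hk'⟩) j (mem_erase.2 ⟨hj0, hj⟩)
        hne (hkt.trans hkt'.symm) (hjt.trans hkt.symm) with h1 | h1
      · rw [h1, hv1]
      · rw [h1, hv2]
    · push Not at hex'
      obtain ⟨v, hv0, hv1, _⟩ := exists_kill (p k) (p k) (p k₀) (by
        rw [Set.pair_eq_singleton]
        exact hind k hk hk0)
      refine ⟨v, hv0, fun j hj hj0 _ hjt => ?_⟩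
      rw [← hex' j hj hj0 hjt, hv1]
  · push Not at hex
    obtain ⟨v, hv⟩ : ∃ v, p k₀ v ≠ 0 := by
      by_contra hno
      push Not at hno
      exact hp0 (LinearMap.ext hno)
    exact ⟨v, hv, fun j hj hj0 _ hjt => absurd hjt (hex j hj hj0)⟩

end Pool.Agent.KS6_56.WR
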